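import Mathlib

/-!
# The correlation of three densities along `x + y + z = 0`

For three densities `f1, f2, f3` on `ZMod Q` the density of the event `x + y + z = 0`, relative to
its density for the uniform measure, is at least `1` minus a quantity controlled by the products of
the Hellinger distances of the `f i` to the uniform density.
-/

set_option autoImplicit false

namespace Pool.Agent.Helper8.VT

open scoped BigOperators

/-- The squared Hellinger distance (up to normalisation) of a density to the uniform one. -/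
noncomputable def hel {Q : ℕ} [NeZero Q] (f : ZMod Q → ℝ) : ℝ := 𝔼 a, (√(f a) - 1) ^ 2

namespace Gam

variable {Q : ℕ} [NeZero Q]

/-- The trilinear form. -/
noncomputable def T (f g k : ZMod Q → ℝ) : ℝ := 𝔼 a, 𝔼 b, f a * g b * k (-a - b)

theorem T_swap (f g k : ZMod Q → ℝ) : T f g k = T g f k := by
  unfold T
  rw [Finset.expect_comm]
  refine Finset.expect_congr rfl fun a _ => Finset.expect_congr rfl fun b _ => ?_
  rw [show -b - a = -a - b by ring]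
  ring

/-- The involution `b ↦ -a - b`. -/
def rfl' (a : ZMod Q) : ZMod Q ≃ ZMod Q where
  toFun b := -a - b
  invFun b := -a - b
  left_inv b := by ring
  right_inv b := by ring

theorem refl_expect (a : ZMod Q) (f : ZMod Q → ℝ) : 𝔼 b, f (-a - b) = 𝔼 b, f b :=
  Fintype.expect_equiv (rfl' a) _ _ fun _ => rfl

theorem T_swap' (f g k : ZMod Q → ℝ) : T f g k = T f k g := by
  unfold T
  refine Finset.expect_congr rfl fun a _ => ?_
  rw [← refl_expect a]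
  refine Finset.expect_congr rfl fun b _ => ?_
  rw [show -a - (-a - b) = b by ring]
  ring

theorem T_add (f f' g k : ZMod Q → ℝ) : T (f + f') g k = T f g k + T f' g k := by
  unfold T
  rw [← Finset.expect_add_distrib]
  refine Finset.expect_congr rfl fun a _ => ?_
  rw [← Finset.expect_add_distrib]
  refine Finset.expect_congr rfl fun b _ => ?_
  simp only [Pi.add_apply]
  ring

theorem T_add2 (f g g' k : ZMod Q → ℝ) : T f (g + g') k = T f g k + T f g' k := by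
  rw [T_swap, T_add, T_swap g, T_swap g']

theorem T_add3 (f g k k' : ZMod Q → ℝ) : T f g (k + k') = T f g k + T f g k' := by
  rw [T_swap', T_add2, T_swap' f k, T_swap' f k']

theorem T_one (g k : ZMod Q → ℝ) : T 1 g k = (𝔼 a, g a) * 𝔼 a, k a := by
  have h : T 1 g k = T g k 1 := by rw [T_swap, T_swap']
  rw [h]
  unfold T
  simp only [Pi.one_apply, mul_one]
  rw [Finset.expect_mul]
  refine Finset.expect_congr rfl fun a _ => ?_
  rw [Finset.mul_expect]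

theorem expect_sub_one (f : ZMod Q → ℝ) (m : 𝔼 a, f a = 1) : 𝔼 a, (f - 1) a = 0 := by
  simp only [Pi.sub_apply, Pi.one_apply]
  rw [Finset.expect_sub_distrib, m, Fintype.expect_const, sub_self]

theorem T_sub_one (f1 f2 f3 : ZMod Q → ℝ) (m1 : 𝔼 a, f1 a = 1) (m2 : 𝔼 a, f2 a = 1)
    (m3 : 𝔼 a, f3 a = 1) : T f1 f2 f3 - 1 = T (f1 - 1) (f2 - 1) (f3 - 1) := by
  have e1 : T f1 f2 f3 = T (f1 - 1) f2 f3 + T 1 f2 f3 := by
    rw [← T_add, sub_add_cancel]
  have e2 : T (f1 - 1) f2 f3 = T (f1 - 1) (f2 - 1) f3 + T (f1 - 1) 1 f3 := by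
    rw [← T_add2, sub_add_cancel]
  have e3 : T (f1 - 1) (f2 - 1) f3
      = T (f1 - 1) (f2 - 1) (f3 - 1) + T (f1 - 1) (f2 - 1) 1 := by
    rw [← T_add3, sub_add_cancel]
  have v1 : T 1 f2 f3 = 1 := by rw [T_one, m2, m3, one_mul]
  have v2 : T (f1 - 1) 1 f3 = 0 := by
    rw [T_swap, T_one, expect_sub_one f1 m1, zero_mul]
  have v3 : T (f1 - 1) (f2 - 1) 1 = 0 := by
    rw [T_swap', T_swap, T_one, expect_sub_one f1 m1, zero_mul]
  linarith

/-- Cauchy-Schwarz in the inner variable. -/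
theorem inner_cs (g k : ZMod Q → ℝ) (a : ZMod Q) :
    |𝔼 b, g b * k (-a - b)| ≤ √(𝔼 b, g b ^ 2) * √(𝔼 b, k b ^ 2) := by
  rw [← Real.sqrt_mul (Finset.expect_nonneg fun b _ => sq_nonneg _)]
  apply Real.abs_le_sqrt
  refine (Finset.expect_mul_sq_le_sq_mul_sq _ _ _).trans (le_of_eq ?_)
  rw [refl_expect a fun b => k b ^ 2]

theorem T_le (f g k : ZMod Q → ℝ) :
    |T f g k| ≤ (𝔼 a, |f a|) * (√(𝔼 b, g b ^ 2) * √(𝔼 b, k b ^ 2)) := by
  unfold T
  refine (Finset.abs_expect_le _ _).trans ?_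
  rw [Finset.expect_mul]
  refine Finset.expect_le_expect fun a _ => ?_
  have h : 𝔼 b, f a * g b * k (-a - b) = f a * 𝔼 b, g b * k (-a - b) := by
    rw [Finset.mul_expect]
    refine Finset.expect_congr rfl fun b _ => ?_
    ring
  rw [h, abs_mul]
  exact mul_le_mul_of_nonneg_left (inner_cs g k a) (abs_nonneg _)

theorem abs_le_sq (f : ZMod Q → ℝ) : 𝔼 a, |f a| ≤ √(𝔼 a, f a ^ 2) := by
  apply Real.le_sqrt_of_sq_le
  have h := Finset.expect_mul_sq_le_sq_mul_sq Finset.univ (fun a => |f a|) (fun _ => (1 : ℝ))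
  simp only [mul_one, one_pow, sq_abs] at h
  rw [Fintype.expect_const, mul_one] at h
  exact h

/-- The large part. -/
noncomputable def hi (f : ZMod Q → ℝ) : ZMod Q → ℝ := fun a => if 4 < f a then f a else 0

/-- The small part. -/
noncomputable def lo (f : ZMod Q → ℝ) : ZMod Q → ℝ := fun a => if 4 < f a then -1 else f a - 1

theorem lo_add_hi (f : ZMod Q → ℝ) : lo f + hi f = f - 1 := by
  funext a
  simp only [Pi.add_apply, Pi.sub_apply, Pi.one_apply, lo, hi]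
  split_ifs <;> ring

theorem hi_nonneg (f : ZMod Q → ℝ) (h : ∀ a, 0 ≤ f a) (a : ZMod Q) : 0 ≤ hi f a := by
  unfold hi
  split_ifs
  · exact h a
  · exact le_rfl

theorem lo_abs (f : ZMod Q → ℝ) (h : ∀ a, 0 ≤ f a) (a : ZMod Q) : |lo f a| ≤ 3 := by
  unfold lo
  have := h a
  split_ifs with hc
  · norm_num
  · rw [abs_le]
    constructor <;> linarith

theorem hel_nonneg (f : ZMod Q → ℝ) : 0 ≤ hel f :=
  Finset.expect_nonneg fun _ _ => sq_nonneg _

theorem hi_pt {t : ℝ} (ht : 4 < t) : t ≤ 4 * (√t - 1) ^ 2 := by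
  have h0 : (0 : ℝ) ≤ t := by linarith
  have h1 : √t * √t = t := Real.mul_self_sqrt h0
  have h2 : 2 < √t := by
    rw [Real.lt_sqrt (by norm_num)]
    linarith
  nlinarith

theorem hi_mean (f : ZMod Q → ℝ) : 𝔼 a, hi f a ≤ 4 * hel f := by
  unfold hel
  rw [Finset.mul_expect]
  refine Finset.expect_le_expect fun a _ => ?_
  unfold hi
  split_ifs with hc
  · exact hi_pt hc
  · positivity

theorem lo_pt {t : ℝ} (h0 : 0 ≤ t) (ht : t ≤ 4) : (t - 1) ^ 2 ≤ 10 * (√t - 1) ^ 2 := by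
  have h1 : √t * √t = t := Real.mul_self_sqrt h0
  have h2 : √t ≤ 2 := by
    rw [Real.sqrt_le_left (by norm_num)]
    linarith
  have h3 : 0 ≤ √t := Real.sqrt_nonneg t
  have h4 : (t - 1) ^ 2 = (√t + 1) ^ 2 * (√t - 1) ^ 2 := by
    nth_rewrite 1 [← h1]
    ring
  rw [h4]
  exact mul_le_mul_of_nonneg_right (by nlinarith) (sq_nonneg _)

theorem lo_pt' {t : ℝ} (ht : 4 < t) : (1 : ℝ) ≤ 10 * (√t - 1) ^ 2 := by
  have h2 : 2 < √t := by
    rw [Real.lt_sqrt (by norm_num)]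
    linarith
  nlinarith

theorem lo_sq (f : ZMod Q → ℝ) (h : ∀ a, 0 ≤ f a) : 𝔼 a, lo f a ^ 2 ≤ 10 * hel f := by
  unfold hel
  rw [Finset.mul_expect]
  refine Finset.expect_le_expect fun a _ => ?_
  unfold lo
  split_ifs with hc
  · have := lo_pt' hc
    linarith
  · exact lo_pt (h a) (not_lt.mp hc)

theorem sqrt_lo (f : ZMod Q → ℝ) (h : ∀ a, 0 ≤ f a) :
    √(𝔼 a, lo f a ^ 2) ≤ √(10 * hel f) := Real.sqrt_le_sqrt (lo_sq f h)

theorem abs_hi (f : ZMod Q → ℝ) (h : ∀ a, 0 ≤ f a) : 𝔼 a, |hi f a| ≤ 4 * hel f := by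
  refine le_trans (le_of_eq ?_) (hi_mean f)
  exact Finset.expect_congr rfl fun a _ => abs_of_nonneg (hi_nonneg f h a)

/-- three small parts -/
theorem rrr (f1 f2 f3 : ZMod Q → ℝ) (h1 : ∀ a, 0 ≤ f1 a) (h2 : ∀ a, 0 ≤ f2 a)
    (h3 : ∀ a, 0 ≤ f3 a) :
    |T (lo f1) (lo f2) (lo f3)| ≤ 32 * √(hel f1 * hel f2 * hel f3) := by
  have a1 := (abs_le_sq (lo f1)).trans (sqrt_lo f1 h1)
  have a2 := sqrt_lo f2 h2
  have a3 := sqrt_lo f3 h3
  refine (T_le _ _ _).trans ?_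
  have n1 := hel_nonneg f1
  have n2 := hel_nonneg f2
  have n3 := hel_nonneg f3
  calc (𝔼 a, |lo f1 a|) * (√(𝔼 b, lo f2 b ^ 2) * √(𝔼 b, lo f3 b ^ 2))
      ≤ √(10 * hel f1) * (√(10 * hel f2) * √(10 * hel f3)) := by
        gcongr
    _ = √(1000 * (hel f1 * hel f2 * hel f3)) := by
        rw [← Real.sqrt_mul (by positivity), ← Real.sqrt_mul (by positivity)]
        congr 1
        ring
    _ = √1000 * √(hel f1 * hel f2 * hel f3) := by
        rw [Real.sqrt_mul (by norm_num)]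
    _ ≤ 32 * √(hel f1 * hel f2 * hel f3) := by
        gcongr
        rw [Real.sqrt_le_left (by norm_num)]
        norm_num

/-- one large part -/
theorem hrr (f1 f2 f3 : ZMod Q → ℝ) (h1 : ∀ a, 0 ≤ f1 a) (h2 : ∀ a, 0 ≤ f2 a)
    (h3 : ∀ a, 0 ≤ f3 a) :
    |T (hi f1) (lo f2) (lo f3)| ≤ 20 * (hel f1 * hel f2 + hel f1 * hel f3) := by
  have a1 := abs_hi f1 h1
  have a2 := sqrt_lo f2 h2
  have a3 := sqrt_lo f3 h3
  refine (T_le _ _ _).trans ?_
  have n1 := hel_nonneg f1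
  have n2 := hel_nonneg f2
  have n3 := hel_nonneg f3
  have e2 : √(10 * hel f2) * √(10 * hel f2) = 10 * hel f2 :=
    Real.mul_self_sqrt (by positivity)
  have e3 : √(10 * hel f3) * √(10 * hel f3) = 10 * hel f3 :=
    Real.mul_self_sqrt (by positivity)
  have am : √(10 * hel f2) * √(10 * hel f3) ≤ 5 * hel f2 + 5 * hel f3 := by
    nlinarith [sq_nonneg (√(10 * hel f2) - √(10 * hel f3))]
  calc (𝔼 a, |hi f1 a|) * (√(𝔼 b, lo f2 b ^ 2) * √(𝔼 b, lo f3 b ^ 2))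
      ≤ (4 * hel f1) * (√(10 * hel f2) * √(10 * hel f3)) := by
        gcongr
    _ ≤ (4 * hel f1) * (5 * hel f2 + 5 * hel f3) := by
        gcongr
    _ = 20 * (hel f1 * hel f2 + hel f1 * hel f3) := by ring

/-- two large parts -/
theorem hhr (f1 f2 f3 : ZMod Q → ℝ) (h1 : ∀ a, 0 ≤ f1 a) (h2 : ∀ a, 0 ≤ f2 a)
    (h3 : ∀ a, 0 ≤ f3 a) :
    |T (hi f1) (hi f2) (lo f3)| ≤ 48 * (hel f1 * hel f2) := by
  have a1 := hi_mean f1
  have a2 := hi_mean f2
  have n1 := hel_nonneg f1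
  have n2 := hel_nonneg f2
  have p1 : 0 ≤ 𝔼 a, hi f1 a := Finset.expect_nonneg fun a _ => hi_nonneg f1 h1 a
  have p2 : 0 ≤ 𝔼 a, hi f2 a := Finset.expect_nonneg fun a _ => hi_nonneg f2 h2 a
  have key : |T (hi f1) (hi f2) (lo f3)| ≤ (𝔼 a, hi f1 a) * (𝔼 b, hi f2 b) * 3 := by
    unfold T
    refine (Finset.abs_expect_le _ _).trans ?_
    rw [Finset.expect_mul, Finset.expect_mul]
    refine Finset.expect_le_expect fun a _ => ?_
    refine (Finset.abs_expect_le _ _).trans ?_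
    rw [Finset.mul_expect, Finset.expect_mul]
    refine Finset.expect_le_expect fun b _ => ?_
    rw [abs_mul, abs_of_nonneg (mul_nonneg (hi_nonneg f1 h1 a) (hi_nonneg f2 h2 b))]
    exact mul_le_mul_of_nonneg_left (lo_abs f3 h3 _)
      (mul_nonneg (hi_nonneg f1 h1 a) (hi_nonneg f2 h2 b))
  refine key.trans ?_
  have : (𝔼 a, hi f1 a) * (𝔼 b, hi f2 b) ≤ (4 * hel f1) * (4 * hel f2) := by
    gcongr
  linarith

theorem hhh (f1 f2 f3 : ZMod Q → ℝ) (h1 : ∀ a, 0 ≤ f1 a) (h2 : ∀ a, 0 ≤ f2 a)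
    (h3 : ∀ a, 0 ≤ f3 a) : 0 ≤ T (hi f1) (hi f2) (hi f3) := by
  unfold T
  refine Finset.expect_nonneg fun a _ => Finset.expect_nonneg fun b _ => ?_
  exact mul_nonneg (mul_nonneg (hi_nonneg f1 h1 a) (hi_nonneg f2 h2 b)) (hi_nonneg f3 h3 _)

theorem expand (r1 h1 r2 h2 r3 h3 : ZMod Q → ℝ) :
    T (r1 + h1) (r2 + h2) (r3 + h3) =
      T r1 r2 r3 + T h1 r2 r3 + T h2 r1 r3 + T h3 r1 r2 +
        T h1 h2 r3 + T h1 h3 r2 + T h2 h3 r1 + T h1 h2 h3 := by
  simp only [T_add, T_add2, T_add3]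
  have e1 : T r1 h2 r3 = T h2 r1 r3 := T_swap _ _ _
  have e2 : T r1 r2 h3 = T h3 r1 r2 := by
    rw [T_swap' r1 r2 h3, T_swap]
  have e3 : T h1 r2 h3 = T h1 h3 r2 := T_swap' _ _ _
  have e4 : T r1 h2 h3 = T h2 h3 r1 := by
    rw [T_swap, T_swap']
  rw [e1, e2, e3, e4]
  ring

end Gam

open Gam in
/-- For three densities on `ZMod Q`, the relative density of `x + y + z = 0` is at least
`1 - 32 √(h1 h2 h3) - 88 (h1 h2 + h2 h3 + h3 h1)`. -/
theorem gamma_ge {Q : ℕ} [NeZero Q] (f1 f2 f3 : ZMod Q → ℝ) (h1 : ∀ a, 0 ≤ f1 a)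
    (h2 : ∀ a, 0 ≤ f2 a) (h3 : ∀ a, 0 ≤ f3 a) (m1 : 𝔼 a, f1 a = 1) (m2 : 𝔼 a, f2 a = 1)
    (m3 : 𝔼 a, f3 a = 1) :
    1 - 𝔼 a, 𝔼 b, f1 a * f2 b * f3 (-a - b) ≤
      32 * √(hel f1 * hel f2 * hel f3) +
        88 * (hel f1 * hel f2 + hel f2 * hel f3 + hel f3 * hel f1) := by
  have e := T_sub_one f1 f2 f3 m1 m2 m3
  rw [← lo_add_hi f1, ← lo_add_hi f2, ← lo_add_hi f3, expand] at e
  have b0 := neg_le_of_abs_le (rrr f1 f2 f3 h1 h2 h3)
  have b1 := neg_le_of_abs_le (hrr f1 f2 f3 h1 h2 h3)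
  have b2 := neg_le_of_abs_le (hrr f2 f1 f3 h2 h1 h3)
  have b3 := neg_le_of_abs_le (hrr f3 f1 f2 h3 h1 h2)
  have b4 := neg_le_of_abs_le (hhr f1 f2 f3 h1 h2 h3)
  have b5 := neg_le_of_abs_le (hhr f1 f3 f2 h1 h3 h2)
  have b6 := neg_le_of_abs_le (hhr f2 f3 f1 h2 h3 h1)
  have b7 := hhh f1 f2 f3 h1 h2 h3
  have u : 𝔼 a, 𝔼 b, f1 a * f2 b * f3 (-a - b) = T f1 f2 f3 := rfl
  rw [u]
  nlinarith

end Pool.Agent.Helper8.VT
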